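import Mathlib

/-!
# Joint return times for `g(n)` and `α g(n) + n` need not be thick

For every real `α` there is a set `E` of positive (lower, hence upper) density such that for every
function `g` the set `R_g(E) ∩ R_{αg+t}(E)` misses a whole residue class.  For `g(t) = t^{3/2}` and
`α` irrational this answers Q1 in the negative.
-/

set_option autoImplicit false

open Filter

namespace Pool.Agent.Results.MP_df75a5_an.NeverThick

/-- Upper density of a set of positive integers. -/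
noncomputable def upperDensity (E : Set ℕ) : ℝ :=
  limsup (fun N : ℕ => ((E ∩ Set.Icc 1 N).ncard : ℝ) / N) atTop

/-- `R_f(E)`: the positive integers `n` such that `x + ⌊f(n)⌋ ∈ E` for some `x ∈ E`. -/
def R (f : ℝ → ℝ) (E : Set ℕ) : Set ℕ :=
  {n | 1 ≤ n ∧ ∃ x ∈ E, ∃ y ∈ E, (x : ℤ) + ⌊f n⌋ = y}

/-- `S` contains arbitrarily long intervals of consecutive positive integers. -/
def Thick (S : Set ℕ) : Prop := ∀ L : ℕ, ∃ a : ℕ, 1 ≤ a ∧ ∀ i ≤ L, a + i ∈ S

/-- The parameter `J`. -/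
noncomputable def J (α : ℝ) : ℕ := ⌈|α|⌉₊ + 2

/-- The Bohr type set `E`. -/
def E (α : ℝ) : Set ℕ :=
  {m | ∃ t : ℕ, 1 ≤ t ∧ m = 2 * J α * t ∧ ∃ z : ℤ, |t * α - z| < 1 / (2 * (2 * J α : ℕ) : ℝ)}

theorem J_pos (α : ℝ) : 0 < J α := by unfold J; omega

theorem abs_le_J (α : ℝ) : |α| ≤ (J α : ℝ) - 2 := by
  unfold J
  push_cast
  have := Nat.le_ceil |α|
  linarith

/-- The key obstruction. -/
theorem avoid (α : ℝ) (g : ℝ → ℝ) (n : ℕ) (h1 : n ∈ R g (E α))
    (h2 : n ∈ R (fun t => α * g t + t) (E α)) : n % (2 * J α) ≠ J α := by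
  intro hn
  obtain ⟨-, x, ⟨s, -, hxs, z, hz⟩, y, ⟨t, -, hyt, z', hz'⟩, hxy⟩ := h1
  obtain ⟨-, x', ⟨s', -, hxs', -⟩, y', ⟨t', -, hyt', -⟩, hxy'⟩ := h2
  have hJ := J_pos α
  have habs := abs_le_J α
  have hJR : (0 : ℝ) < J α := by exact_mod_cast hJ
  set j : ℕ := J α with hj
  set k : ℕ := n / (2 * j) with hk
  have hnk : n = 2 * j * k + j := by
    have h0 : 2 * j * k + n % (2 * j) = n := Nat.div_add_mod n (2 * j)
    rw [hn] at h0
    exact h0.symm
  -- floor of `g n`
  have hA : (⌊g n⌋ : ℤ) = 2 * j * ((t : ℤ) - s) := by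
    have : (x : ℤ) + ⌊g n⌋ = y := hxy
    rw [hxs, hyt] at this
    push_cast at this
    linarith
  have hB : (⌊α * g n + n⌋ : ℤ) = 2 * j * ((t' : ℤ) - s') := by
    have : (x' : ℤ) + ⌊α * g n + n⌋ = y' := hxy'
    rw [hxs', hyt'] at this
    push_cast at this
    linarith
  set θ : ℝ := Int.fract (g n) with hθ
  have hθ0 : 0 ≤ θ := Int.fract_nonneg _
  have hθ1 : θ < 1 := Int.fract_lt_one _
  have hg : g n = 2 * j * ((t : ℝ) - s) + θ := by
    have h := Int.floor_add_fract (g n)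
    rw [← h, hA]
    push_cast
    ring
  have hlow := Int.floor_le (α * g n + n)
  have hupp := Int.lt_floor_add_one (α * g n + n)
  rw [hB] at hlow hupp
  push_cast at hlow hupp hz hz'
  -- the error terms
  have h4 : (2 * (2 * (j : ℝ))) * (1 / (2 * (2 * (j : ℝ)))) = 1 := by
    field_simp
  have e1 : |(2 * (2 * (j : ℝ))) * (s * α - z)| < 1 := by
    rw [abs_mul, abs_of_pos (by positivity : (0 : ℝ) < 2 * (2 * (j : ℝ)))]
    calc (2 * (2 * (j : ℝ))) * |s * α - z| < (2 * (2 * (j : ℝ))) * (1 / (2 * (2 * (j : ℝ)))) := by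
          apply mul_lt_mul_of_pos_left hz (by positivity)
      _ = 1 := h4
  have e2 : |(2 * (2 * (j : ℝ))) * (t * α - z')| < 1 := by
    rw [abs_mul, abs_of_pos (by positivity : (0 : ℝ) < 2 * (2 * (j : ℝ)))]
    calc (2 * (2 * (j : ℝ))) * |t * α - z'| < (2 * (2 * (j : ℝ))) * (1 / (2 * (2 * (j : ℝ)))) := by
          apply mul_lt_mul_of_pos_left hz' (by positivity)
      _ = 1 := h4
  rw [abs_lt] at e1 e2
  have hαθ : |α * θ| ≤ (j : ℝ) - 2 := by
    rw [abs_mul, abs_of_nonneg hθ0]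
    calc |α| * θ ≤ |α| * 1 := by
          apply mul_le_mul_of_nonneg_left hθ1.le (abs_nonneg _)
      _ ≤ (j : ℝ) - 2 := by linarith
  rw [abs_le] at hαθ
  have hnR : (n : ℝ) = 2 * j * k + j := by
    rw [hnk]; push_cast; ring
  rw [hg, hnR] at hlow hupp
  -- the integer `w - Z - k`
  set w : ℤ := ((t' : ℤ) - s') - (z' - z) - k with hw
  have hwR : (w : ℝ) = ((t' : ℝ) - s') - (z' - z) - k := by
    rw [hw]; push_cast; ring
  have l1 : 2 * (j : ℝ) * w < 2 * j - 1 := by
    rw [hwR]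
    nlinarith
  have l2 : (1 : ℝ) < 2 * (j : ℝ) * w + 1 := by
    rw [hwR]
    nlinarith
  have hw1 : w < 1 := by
    by_contra hcon
    have : (1 : ℤ) ≤ w := by omega
    have h5 : (1 : ℝ) ≤ w := by exact_mod_cast this
    nlinarith
  have hw0 : 0 < w := by
    by_contra hcon
    have : w ≤ 0 := by omega
    have h5 : (w : ℝ) ≤ 0 := by exact_mod_cast this
    nlinarith
  omega

/-- times `t ≤ N` with `t α` close to an integer. -/
noncomputable def T (α : ℝ) (K N : ℕ) : Finset ℕ := by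
  classical
  exact (Finset.Icc 1 N).filter (fun t => ∃ z : ℤ, |t * α - z| < 1 / (K : ℝ))

theorem card_T (α : ℝ) (K N : ℕ) (hK : 0 < K) : N ≤ K * ((T α K N).card + 1) := by
  classical
  have hKR : (0 : ℝ) < K := by exact_mod_cast hK
  let φ : ℕ → ℕ := fun t => ⌊(K : ℝ) * Int.fract (t * α)⌋₊
  have hmaps : ∀ t ∈ Finset.Icc 1 N, φ t ∈ Finset.range K := by
    intro t _
    rw [Finset.mem_range]
    have h0 : 0 ≤ (K : ℝ) * Int.fract (t * α) := by
      have := Int.fract_nonneg (t * α)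
      positivity
    rw [Nat.floor_lt h0]
    have := Int.fract_lt_one (t * α)
    nlinarith
  have hcard := Finset.card_eq_sum_card_fiberwise hmaps
  have hfib : ∀ b ∈ Finset.range K,
      ((Finset.Icc 1 N).filter (fun t => φ t = b)).card ≤ (T α K N).card + 1 := by
    intro b _
    rcases ((Finset.Icc 1 N).filter (fun t => φ t = b)).eq_empty_or_nonempty with h | h
    · rw [h]; simp
    · set F := (Finset.Icc 1 N).filter (fun t => φ t = b) with hF
      set t0 := F.min' h with ht0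
      have ht0F : t0 ∈ F := Finset.min'_mem _ _
      have hinj : Set.InjOn (fun t => t - t0) ((F.erase t0 : Finset ℕ) : Set ℕ) := by
        intro a ha b hb hab
        have ha1 := Finset.min'_le F a (Finset.mem_of_mem_erase (by exact_mod_cast ha))
        have hb1 := Finset.min'_le F b (Finset.mem_of_mem_erase (by exact_mod_cast hb))
        simp only at hab
        rw [← ht0] at ha1 hb1
        omega
      have hsub : (F.erase t0).image (fun t => t - t0) ⊆ T α K N := by
        intro u hu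
        rw [Finset.mem_image] at hu
        obtain ⟨t, ht, rfl⟩ := hu
        have htF := Finset.mem_of_mem_erase ht
        have htne := Finset.ne_of_mem_erase ht
        have ht1 := Finset.min'_le F t htF
        rw [← ht0] at ht1
        have htI := (Finset.mem_filter.1 htF)
        have ht0I := (Finset.mem_filter.1 ht0F)
        have hI := Finset.mem_Icc.1 htI.1
        have hI0 := Finset.mem_Icc.1 ht0I.1
        unfold T
        rw [Finset.mem_filter, Finset.mem_Icc]
        refine ⟨by omega, ⌊(t : ℝ) * α⌋ - ⌊(t0 : ℝ) * α⌋, ?_⟩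
        have e : ((t - t0 : ℕ) : ℝ) * α - ((⌊(t : ℝ) * α⌋ - ⌊(t0 : ℝ) * α⌋ : ℤ) : ℝ)
            = Int.fract ((t : ℝ) * α) - Int.fract ((t0 : ℝ) * α) := by
          rw [Nat.cast_sub ht1]
          push_cast
          unfold Int.fract
          ring
        rw [e]
        have h1 : φ t = φ t0 := htI.2.trans ht0I.2.symm
        have p1 : 0 ≤ (K : ℝ) * Int.fract ((t : ℝ) * α) :=
          mul_nonneg hKR.le (Int.fract_nonneg _)
        have p2 : 0 ≤ (K : ℝ) * Int.fract ((t0 : ℝ) * α) :=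
          mul_nonneg hKR.le (Int.fract_nonneg _)
        have q1 := Nat.floor_le p1
        have q2 := Nat.lt_floor_add_one ((K : ℝ) * Int.fract ((t : ℝ) * α))
        have q3 := Nat.floor_le p2
        have q4 := Nat.lt_floor_add_one ((K : ℝ) * Int.fract ((t0 : ℝ) * α))
        have h2 : (⌊(K : ℝ) * Int.fract ((t : ℝ) * α)⌋₊ : ℝ)
            = (⌊(K : ℝ) * Int.fract ((t0 : ℝ) * α)⌋₊ : ℝ) := by exact_mod_cast h1
        rw [abs_lt, lt_div_iff₀ hKR, neg_lt, ← neg_lt, neg_div', div_lt_iff₀ hKR]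
        constructor <;> nlinarith
      have h3 := Finset.card_le_card hsub
      rw [Finset.card_image_of_injOn hinj, Finset.card_erase_of_mem ht0F] at h3
      omega
  calc N = (Finset.Icc 1 N).card := by simp
    _ = ∑ b ∈ Finset.range K, ((Finset.Icc 1 N).filter (fun t => φ t = b)).card := hcard
    _ ≤ ∑ b ∈ Finset.range K, ((T α K N).card + 1) := Finset.sum_le_sum hfib
    _ = K * ((T α K N).card + 1) := by simp

theorem card_E (α : ℝ) (M : ℕ) :
    M / (2 * J α) ≤ (2 * (2 * J α)) * ((E α ∩ Set.Icc 1 M).ncard + 1) := by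
  classical
  have hJ := J_pos α
  refine (card_T α (2 * (2 * J α)) (M / (2 * J α)) (by omega)).trans ?_
  refine Nat.mul_le_mul_left _ (Nat.add_le_add_right ?_ 1)
  have hfin : (E α ∩ Set.Icc 1 M).Finite := (Set.finite_Icc 1 M).inter_of_right _
  have hinj : Function.Injective (fun t => 2 * J α * t) := by
    intro a b hab
    exact Nat.eq_of_mul_eq_mul_left (by omega : 0 < 2 * J α) hab
  rw [← Set.ncard_coe_finset, ← Set.ncard_image_of_injective _ hinj]
  refine Set.ncard_le_ncard ?_ hfin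
  rintro _ ⟨t, ht, rfl⟩
  rw [Finset.mem_coe] at ht
  unfold T at ht
  rw [Finset.mem_filter, Finset.mem_Icc] at ht
  obtain ⟨⟨h1, h2⟩, z, hz⟩ := ht
  refine ⟨⟨t, h1, rfl, z, ?_⟩, ?_⟩
  · push_cast at hz ⊢
    exact hz
  · rw [Set.mem_Icc]
    constructor
    · have : 0 < 2 * J α * t := by positivity
      exact this
    · calc 2 * J α * t ≤ 2 * J α * (M / (2 * J α)) := Nat.mul_le_mul_left _ h2
        _ ≤ M := Nat.mul_div_le _ _

/-- `E` has positive lower density. -/
theorem lower (α : ℝ) : ∃ c : ℝ, 0 < c ∧ ∀ᶠ M : ℕ in atTop,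
    c * M ≤ ((E α ∩ Set.Icc 1 M).ncard : ℝ) := by
  have hJ := J_pos α
  have hJR : (0 : ℝ) < J α := by exact_mod_cast hJ
  refine ⟨1 / (16 * (J α : ℝ) ^ 2), by positivity, ?_⟩
  filter_upwards [eventually_ge_atTop (16 * (J α) ^ 2 + 4 * J α)] with M hM
  have h1 := card_E α M
  have h2 : M < 2 * J α * (M / (2 * J α)) + 2 * J α := by
    have h3 := Nat.div_add_mod M (2 * J α)
    have h4 := Nat.mod_lt M (show 0 < 2 * J α by omega)
    omega
  have h1R : ((M / (2 * J α) : ℕ) : ℝ)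
      ≤ (2 * (2 * (J α : ℝ))) * ((E α ∩ Set.Icc 1 M).ncard + 1) := by exact_mod_cast h1
  have h2R : (M : ℝ) < 2 * J α * ((M / (2 * J α) : ℕ) : ℝ) + 2 * J α := by exact_mod_cast h2
  have hMR : (16 * (J α : ℝ) ^ 2 + 4 * J α) ≤ M := by exact_mod_cast hM
  rw [div_mul_eq_mul_div, one_mul, div_le_iff₀ (by positivity)]
  nlinarith

theorem upperDensity_pos (α : ℝ) : 0 < upperDensity (E α) := by
  obtain ⟨c, hc, h⟩ := lower α
  refine lt_of_lt_of_le hc ?_
  unfold upperDensity
  refine le_limsup_of_frequently_le ?_ ?_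
  · refine Eventually.frequently ?_
    filter_upwards [h, eventually_gt_atTop 0] with M hM hM0
    have : (0 : ℝ) < M := by exact_mod_cast hM0
    rw [le_div_iff₀ this]
    exact hM
  · refine isBoundedUnder_of ⟨1, fun M => ?_⟩
    have h1 : ((E α) ∩ Set.Icc 1 M).ncard ≤ M := by
      calc ((E α) ∩ Set.Icc 1 M).ncard ≤ (Set.Icc 1 M).ncard :=
            Set.ncard_le_ncard Set.inter_subset_right (Set.finite_Icc 1 M)
        _ = M := by
            rw [← Finset.coe_Icc, Set.ncard_coe_finset]; simp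
    have h2 : (((E α) ∩ Set.Icc 1 M).ncard : ℝ) ≤ M := by exact_mod_cast h1
    rcases Nat.eq_zero_or_pos M with rfl | hM
    · simp
    · rw [div_le_one (by exact_mod_cast hM)]
      exact h2

/-- Main result.  For every real `α` there are a set `E` of positive integers of positive lower
density (hence positive upper density), and `J ≥ 1`, such that for every function `g` no
`n ≡ J (mod 2J)` lies in `R_g(E) ∩ R_{αg+t}(E)`.  Hence for every real (in particular every
irrational) `α` the statement of Q1 fails. -/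
theorem result :
    (∀ α : ℝ, ∃ E : Set ℕ, (∀ x ∈ E, 1 ≤ x) ∧
      (∃ c : ℝ, 0 < c ∧ ∀ᶠ M : ℕ in atTop, c * M ≤ ((E ∩ Set.Icc 1 M).ncard : ℝ)) ∧
      0 < upperDensity E ∧
      ∃ j : ℕ, 1 ≤ j ∧ ∀ g : ℝ → ℝ, ∀ n ∈ R g E ∩ R (fun t => α * g t + t) E,
        ¬ n ≡ j [MOD 2 * j]) ∧
    (∀ α : ℝ, Irrational α → ∃ E : Set ℕ, (∀ x ∈ E, 1 ≤ x) ∧ 0 < upperDensity E ∧
      ¬ Thick (R (fun t => t ^ (3 / 2 : ℝ)) E ∩ R (fun t => α * t ^ (3 / 2 : ℝ) + t) E)) := by
  have hpos : ∀ α : ℝ, ∀ x ∈ E α, 1 ≤ x := by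
    rintro α x ⟨t, ht, rfl, -⟩
    have := J_pos α
    have : 0 < 2 * J α * t := by positivity
    exact this
  have hav : ∀ α : ℝ, ∀ g : ℝ → ℝ, ∀ n ∈ R g (E α) ∩ R (fun t => α * g t + t) (E α),
        ¬ n ≡ J α [MOD 2 * J α] := by
    intro α g n hn hmod
    have hJ := J_pos α
    refine avoid α g n hn.1 hn.2 ?_
    have h : n % (2 * J α) = J α % (2 * J α) := hmod
    rw [h]
    exact Nat.mod_eq_of_lt (by omega)
  refine ⟨fun α => ⟨E α, hpos α, lower α, upperDensity_pos α, J α, J_pos α, hav α⟩, ?_⟩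
  intro α _
  refine ⟨E α, hpos α, upperDensity_pos α, ?_⟩
  intro hT
  obtain ⟨a, -, ha⟩ := hT (2 * J α)
  have hJ := J_pos α
  -- find `i < 2J` with `a + i ≡ J`
  have hi : ∃ i < 2 * J α, (a + i) % (2 * J α) = J α % (2 * J α) := by
    refine ⟨(J α + (2 * J α - a % (2 * J α))) % (2 * J α), Nat.mod_lt _ (by omega), ?_⟩
    have h1 := Nat.mod_lt a (show 0 < 2 * J α by omega)
    rw [Nat.add_mod, Nat.mod_mod, ← Nat.add_mod]
    have h2 := Nat.div_add_mod a (2 * J α)
    have h3 : a + (J α + (2 * J α - a % (2 * J α)))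
        = J α + 2 * J α * (a / (2 * J α) + 1) := by
      rw [mul_add, mul_one]
      omega
    rw [h3, Nat.add_mul_mod_self_left]
  obtain ⟨i, hi, hi2⟩ := hi
  exact hav α (fun t => t ^ (3 / 2 : ℝ)) (a + i) (ha i (by omega)) hi2

end Pool.Agent.Results.MP_df75a5_an.NeverThick
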